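import Pool.Agent.Helper52.ES.Spec

set_option autoImplicit false

/-!
# Module LF : the forced pairs
-/

namespace Pool.Agent.Helper34.ES

open Pool.Agent.Helper52.ES Pool.Agent.Helper52.Grid

variable {p : Par}

/-! ### distances of axis-parallel pairs -/

theorem l1_symm (a b : Vx) : p.l1 a b = p.l1 b a := by
  unfold Par.l1
  omega

theorem dst_symm (a b : Vx) : p.dst a b = p.dst b a := by
  unfold Par.dst Pool.Agent.Helper52.ETSP.edist
  congr 1
  push_cast
  ring

theorem dst_h {a b : Vx} {L : ℕ} (hy : p.py a = p.py b) (hx : p.px b = p.px a + L) :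
    p.dst a b = L ∧ p.l1 a b = L := by
  constructor
  · unfold Par.dst Pool.Agent.Helper52.ETSP.edist Par.pos
    simp only
    rw [hy, hx]
    have : (((p.px a : ℤ) - ((p.px a + L : ℕ) : ℤ) : ℤ) : ℝ) ^ 2 +
        (((p.py b : ℤ) - (p.py b : ℤ) : ℤ) : ℝ) ^ 2 = (L : ℝ) ^ 2 := by
      push_cast
      ring
    rw [this, Real.sqrt_sq (by positivity)]
  · unfold Par.l1
    omega

theorem dst_v {a b : Vx} {L : ℕ} (hx : p.px a = p.px b) (hy : p.py b = p.py a + L) :
    p.dst a b = L ∧ p.l1 a b = L := by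
  constructor
  · unfold Par.dst Pool.Agent.Helper52.ETSP.edist Par.pos
    simp only
    rw [hx, hy]
    have : (((p.px b : ℤ) - (p.px b : ℤ) : ℤ) : ℝ) ^ 2 +
        (((p.py a : ℤ) - ((p.py a + L : ℕ) : ℤ) : ℤ) : ℝ) ^ 2 = (L : ℝ) ^ 2 := by
      push_cast
      ring
    rw [this, Real.sqrt_sq (by positivity)]
  · unfold Par.l1
    omega

/-- a pair with exact length and overlapping discs -/
def Gd (p : Par) (a b : Vx) : Prop :=
  ∃ L : ℕ, 0 < L ∧ p.dst a b = L ∧ p.l1 a b = L ∧ (L : ℝ) ≤ p.rad a + p.rad b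

theorem Gd.symm {a b : Vx} (h : Gd p a b) : Gd p b a := by
  obtain ⟨L, h1, h2, h3, h4⟩ := h
  exact ⟨L, h1, by rw [dst_symm, h2], by rw [l1_symm, h3], by linarith⟩

theorem gd_h {a b : Vx} (L : ℕ) (hL : 0 < L) (hy : p.py a = p.py b) (hx : p.px b = p.px a + L)
    (hr : (L : ℝ) ≤ p.rad a + p.rad b) : Gd p a b :=
  ⟨L, hL, (dst_h hy hx).1, (dst_h hy hx).2, hr⟩

theorem gd_v {a b : Vx} (L : ℕ) (hL : 0 < L) (hx : p.px a = p.px b) (hy : p.py b = p.py a + L)
    (hr : (L : ℝ) ≤ p.rad a + p.rad b) : Gd p a b :=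
  ⟨L, hL, (dst_v hx hy).1, (dst_v hx hy).2, hr⟩

/-! ### coordinates -/

theorem px_lat (x y : ℕ) : p.px (lat x y) = p.X x + (if x = p.K0 ∧ 4 ≤ y ∧ 4 ≤ (y - 4) % 6 then
    p.A ((y - 4) / 6) else 0) := rfl

theorem py_lat (x y : ℕ) : p.py (lat x y) = p.Y y - (if x = p.K0 + 1 ∧ 4 ≤ y ∧ (y - 4) % 6 = 3 then
    p.H ((y - 4) / 6) else 0) := rfl

theorem px_hm (x y : ℕ) : p.px (hm x y) = p.X x + (if x = 3 then 7 * p.u else 8 * p.u) := rfl

theorem py_hm (x y : ℕ) : p.py (hm x y) = p.Y y - (if x = p.K0 ∧ 4 ≤ y then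
      p.H ((y - 4) / 6) else 0) := rfl

theorem px_vm (x y : ℕ) : p.px (vm x y) = p.X x + (if x = p.K0 ∧ 4 ≤ y ∧ 3 ≤ (y - 4) % 6 then
    p.A ((y - 4) / 6) else 0) := rfl

theorem py_vm (x y : ℕ) : p.py (vm x y) = p.Y y + 7 * p.u := rfl

theorem px_ring (i c : ℕ) : p.px (ring i c) = p.X p.K0 + (if 2 ≤ c then p.A i else 0) := rfl

theorem py_ring (i c : ℕ) : p.py (ring i c) =
    (if c = 1 then p.Y (7 + 6 * i) else if c = 2 then p.Y (7 + 6 * i) + p.C i
    else p.Y (7 + 6 * i) - p.H i) := rfl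

theorem px_coin (i c k : ℕ) : p.px (coin i c k) =
  if c = 0 then p.X p.K0
  else if c = 1 then p.X p.K0 - 2 ^ k
  else if c = 2 then p.X p.K0 + p.A i
  else p.X p.K0 + p.A i + 2 ^ k := rfl

theorem py_coin (i c k : ℕ) : p.py (coin i c k) =
  if c = 0 then p.Y (7 + 6 * i) - p.H i - 2 ^ k
  else if c = 1 then p.Y (7 + 6 * i)
  else if c = 2 then p.Y (7 + 6 * i) + p.C i + 2 ^ k
  else p.Y (7 + 6 * i) - p.H i := rfl

theorem px_lat0 {x y : ℕ} (h : ¬ (x = p.K0 ∧ 4 ≤ y ∧ 4 ≤ (y - 4) % 6)) :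
    p.px (lat x y) = p.X x := by rw [px_lat, if_neg h, add_zero]

theorem px_lat1 {x y : ℕ} (h : x = p.K0 ∧ 4 ≤ y ∧ 4 ≤ (y - 4) % 6) :
    p.px (lat x y) = p.X x + p.A ((y - 4) / 6) := by rw [px_lat, if_pos h]

theorem py_lat0 {x y : ℕ} (h : ¬ (x = p.K0 + 1 ∧ 4 ≤ y ∧ (y - 4) % 6 = 3)) :
    p.py (lat x y) = p.Y y := by rw [py_lat, if_neg h, Nat.sub_zero]

theorem py_lat1 {x y : ℕ} (h : x = p.K0 + 1 ∧ 4 ≤ y ∧ (y - 4) % 6 = 3) :
    p.py (lat x y) = p.Y y - p.H ((y - 4) / 6) := by rw [py_lat, if_pos h]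

theorem px_hm0 {x : ℕ} (y : ℕ) (h : x ≠ 3) : p.px (hm x y) = p.X x + 8 * p.u := by
  rw [px_hm, if_neg h]

theorem py_hm0 {x y : ℕ} (h : ¬ (x = p.K0 ∧ 4 ≤ y)) : p.py (hm x y) = p.Y y := by
  rw [py_hm, if_neg h, Nat.sub_zero]

theorem py_hm1 {x y : ℕ} (h : x = p.K0 ∧ 4 ≤ y) :
    p.py (hm x y) = p.Y y - p.H ((y - 4) / 6) := by
  rw [py_hm, if_pos h]

theorem px_vm0 {x y : ℕ} (h : ¬ (x = p.K0 ∧ 4 ≤ y ∧ 3 ≤ (y - 4) % 6)) :
    p.px (vm x y) = p.X x := by rw [px_vm, if_neg h, add_zero]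

theorem px_vm1 {x y : ℕ} (h : x = p.K0 ∧ 4 ≤ y ∧ 3 ≤ (y - 4) % 6) :
    p.px (vm x y) = p.X x + p.A ((y - 4) / 6) := by rw [px_vm, if_pos h]

theorem px_coin0 (i k : ℕ) : p.px (coin i 0 k) = p.X p.K0 := rfl
theorem px_coin1 (i k : ℕ) : p.px (coin i 1 k) = p.X p.K0 - 2 ^ k := rfl
theorem px_coin2 (i k : ℕ) : p.px (coin i 2 k) = p.X p.K0 + p.A i := rfl
theorem px_coin3 (i k : ℕ) : p.px (coin i 3 k) = p.X p.K0 + p.A i + 2 ^ k := rfl
theorem py_coin0 (i k : ℕ) : p.py (coin i 0 k) = p.Y (7 + 6 * i) - p.H i - 2 ^ k := rfl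
theorem py_coin1 (i k : ℕ) : p.py (coin i 1 k) = p.Y (7 + 6 * i) := rfl
theorem py_coin2 (i k : ℕ) : p.py (coin i 2 k) = p.Y (7 + 6 * i) + p.C i + 2 ^ k := rfl
theorem py_coin3 (i k : ℕ) : p.py (coin i 3 k) = p.Y (7 + 6 * i) - p.H i := rfl
theorem px_ring0 (i : ℕ) : p.px (ring i 0) = p.X p.K0 := rfl
theorem px_ring1 (i : ℕ) : p.px (ring i 1) = p.X p.K0 := rfl
theorem px_ring2 (i : ℕ) : p.px (ring i 2) = p.X p.K0 + p.A i := rfl
theorem px_ring3 (i : ℕ) : p.px (ring i 3) = p.X p.K0 + p.A i := rfl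
theorem py_ring0 (i : ℕ) : p.py (ring i 0) = p.Y (7 + 6 * i) - p.H i := rfl
theorem py_ring1 (i : ℕ) : p.py (ring i 1) = p.Y (7 + 6 * i) := rfl
theorem py_ring2 (i : ℕ) : p.py (ring i 2) = p.Y (7 + 6 * i) + p.C i := rfl
theorem py_ring3 (i : ℕ) : p.py (ring i 3) = p.Y (7 + 6 * i) - p.H i := rfl

theorem u_pos : 0 < p.u := by unfold Par.u; positivity

theorem two_pow_e2 : 2 ^ (p.e + 2) = 4 * p.u := by
  unfold Par.u
  rw [pow_add]
  ring

theorem X_succ {x : ℕ} (hx : x ≠ 3) : p.X (x + 1) = p.X x + 16 * p.u := by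
  unfold Par.X
  have : 16 * p.u * (x + 1) = 16 * p.u * x + 16 * p.u := by ring
  rw [this]
  split_ifs <;> omega

theorem X_four : p.X 4 = p.X 3 + 14 * p.u := by
  unfold Par.X
  norm_num
  omega

theorem Y_succ {y : ℕ} (h1 : 1 ≤ y) (hy : y ≠ 2) : p.Y (y + 1) = p.Y y + 14 * p.u := by
  unfold Par.Y
  have h2 : 14 * p.u * (y + 1) = 14 * p.u * y + 14 * p.u := by ring
  have h3 : 14 * p.u * 1 ≤ 14 * p.u * y := Nat.mul_le_mul_left _ h1
  rw [h2]
  split_ifs <;> omega

theorem Y_big {y : ℕ} (h : 3 ≤ y) : 42 * p.u ≤ p.Y y := by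
  unfold Par.Y
  have h3 : 14 * p.u * 3 ≤ 14 * p.u * y := Nat.mul_le_mul_left _ h
  rw [if_neg (by omega)]
  omega

theorem K0_ge : 5 ≤ p.K0 := by unfold Par.K0; omega

theorem X_K0_big : 80 * p.u ≤ p.X p.K0 := by
  unfold Par.X
  have h3 : 16 * p.u * 5 ≤ 16 * p.u * p.K0 := Nat.mul_le_mul_left _ K0_ge
  omega

/-- bounds of the parameters of a row -/
theorem ok_bounds {W : ℕ} (hok : p.Ok W) {i : ℕ} (hi : i < p.rows) :
    8 * p.A i ≤ p.u ∧ p.C i ≤ p.A i ∧ p.R i ≤ p.A i + p.C i ∧ p.H i ≤ p.A i := by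
  have h1 := hok.sml i hi
  have h2 := hok.CA i hi
  have h3 : p.R i ≤ p.A i + p.C i := by
    have := hok.low i hi
    by_contra hcon
    push Not at hcon
    have h4 : (p.A i + p.C i) ^ 2 < p.R i ^ 2 := Nat.pow_lt_pow_left hcon (by norm_num)
    nlinarith [Nat.zero_le (p.A i * p.C i)]
  have h4 := hok.par i hi
  exact ⟨h1, h2, h3, by omega⟩

/-! ### radii -/

theorem rad_lat (x y : ℕ) : p.rad (lat x y) =
    (if p.fd x y = 1 then
      (if Par.lring x y then 7 * (p.u : ℝ)
      else if y = 2 ∨ y % 2 = 1 then 8 * (p.u : ℝ) else 6 * (p.u : ℝ))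
    else if x = p.K0 ∧ 4 ≤ y ∧ (y - 4) % 6 = 5 then 5 * (p.u : ℝ)
    else 4 * (p.u : ℝ)) := by
  unfold Par.rad
  simp

theorem rad_lat_ge (x y : ℕ) : 4 * (p.u : ℝ) ≤ p.rad (lat x y) := by
  rw [rad_lat]
  have : (0 : ℝ) ≤ p.u := by positivity
  split_ifs <;> linarith

theorem rad_hm (x y : ℕ) : p.rad (hm x y) = 4 * (p.u : ℝ) := by
  unfold Par.rad
  simp

theorem rad_vm (x y : ℕ) : p.rad (vm x y) = 4 * (p.u : ℝ) := by
  unfold Par.rad
  simp

theorem rad_ring (i c : ℕ) : p.rad (ring i c) = (p.r2 i c : ℝ) / 2 := by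
  unfold Par.rad
  simp

theorem rad_coin (i c k : ℕ) : p.rad (coin i c k) =
    if p.fst' i c k then 2 / 5 * 2 ^ k else 7 / 20 * 2 ^ k := by
  unfold Par.rad
  simp

theorem rad_coin_ge (i c k : ℕ) : 7 / 20 * (2 : ℝ) ^ k ≤ p.rad (coin i c k) := by
  rw [rad_coin]
  have : (0 : ℝ) < 2 ^ k := by positivity
  split_ifs <;> linarith

theorem rad_last (i c : ℕ) : 7 / 5 * (p.u : ℝ) ≤ p.rad (coin i c (p.e + 2)) := by
  have h := rad_coin_ge (p := p) i c (p.e + 2)
  have h2 : (2 : ℝ) ^ (p.e + 2) = 4 * (p.u : ℝ) := by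
    have := two_pow_e2 (p := p)
    exact_mod_cast this
  rw [h2] at h
  linarith

/-! ### the pairs -/

theorem v_two (x : ℕ) : p.v x 2 ≠ 0 := by
  unfold Par.v
  by_cases h1 : x < p.K0
  · rw [if_pos h1]
    have h1' : x < 5 + 4 * p.s.length := h1
    unfold vC
    rw [if_pos (by norm_num)]
    unfold vT
    by_cases h5 : x < 5
    · rw [if_pos h5, if_neg (by omega)]
      norm_num
    · rw [if_neg h5, if_pos h1', if_neg (by norm_num), if_neg (by norm_num)]
      split_ifs <;> norm_num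
  · rw [if_neg h1]
    by_cases h2 : x = p.K0
    · rw [if_pos h2, if_neg (by omega)]
      norm_num
    · rw [if_neg h2]
      by_cases h3 : x = p.K0 + 1
      · rw [if_pos h3, if_neg (by omega)]
        norm_num
      · rw [if_neg h3]
        norm_num

theorem gd_hor {W : ℕ} (hok : p.Ok W) (hN : p.NF) {x y : ℕ} (h0 : p.h x y = 0) :
    Gd p (p.st x y 3) (hm x y) ∧ Gd p (hm x y) (p.st (x + 1) y 1) := by
  obtain ⟨bx1, bx2, by1, by2⟩ := hN.boxh x y h0
  have hK := K0_ge (p := p)
  have hu := u_pos (p := p)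
  have hu' : (0 : ℝ) < p.u := by exact_mod_cast hu
  constructor
  · unfold Par.st
    by_cases hh : p.hub x y = true
    · rw [if_pos hh]
      obtain ⟨hx, i, hi, hy⟩ := (hN.hubI x y).1 hh
      subst hx
      obtain ⟨b1, b2, b3, b4⟩ := ok_bounds hok hi
      have hid : (y - 4) / 6 = i := by omega
      rw [hid]
      refine gd_h (4 * p.u - p.A i) (by omega) ?_ ?_ ?_
      · rw [py_coin3, py_hm1 ⟨rfl, by omega⟩, hid, hy]
      · rw [px_coin3, px_hm0 _ (by omega), two_pow_e2]
        omega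
      · rw [rad_hm]
        have := rad_last (p := p) i 3
        have h9 : ((4 * p.u - p.A i : ℕ) : ℝ) ≤ 4 * p.u := by
          have : (4 * p.u - p.A i : ℕ) ≤ 4 * p.u := Nat.sub_le _ _
          exact_mod_cast this
        linarith
    · rw [if_neg hh]
      by_cases hxK : x = p.K0
      · subst hxK
        have hy : y = 3 := by
          rcases (hN.k0h y).1 h0 with h | ⟨i, hi, h⟩
          · exact h
          · exact absurd ((hN.hubI _ y).2 ⟨rfl, i, hi, h⟩) hh
        subst hy
        refine gd_h (8 * p.u) (by omega) ?_ ?_ ?_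
        · rw [py_lat0 (by omega), py_hm0 (by omega)]
        · rw [px_lat0 (by omega), px_hm0 _ (by omega)]
        · rw [rad_hm]
          have := rad_lat_ge (p := p) p.K0 3
          push_cast
          linarith
      · refine gd_h (if x = 3 then 7 * p.u else 8 * p.u) (by split_ifs <;> omega) ?_ ?_ ?_
        · rw [py_lat0 (by omega), py_hm0 (fun h => hxK h.1)]
        · rw [px_lat0 (fun h => hxK h.1), px_hm]
        · rw [rad_hm]
          have := rad_lat_ge (p := p) x y
          split_ifs <;> push_cast <;> linarith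
  · unfold Par.st
    by_cases hh : p.hub (x + 1) y = true
    · rw [if_pos hh]
      obtain ⟨hx, i, hi, hy⟩ := (hN.hubI (x + 1) y).1 hh
      obtain ⟨b1, b2, b3, b4⟩ := ok_bounds hok hi
      have hid : (y - 4) / 6 = i := by omega
      rw [hid]
      have hXs := X_succ (p := p) (x := x) (by omega)
      rw [hx] at hXs
      refine gd_h (4 * p.u) (by omega) ?_ ?_ ?_
      · rw [py_coin1, py_hm0 (by omega), hy]
      · rw [px_coin1, px_hm0 _ (by omega), two_pow_e2, hXs]
        omega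
      · rw [rad_hm]
        have := rad_last (p := p) i 1
        push_cast
        linarith
    · rw [if_neg hh]
      by_cases hxK : x = p.K0
      · subst hxK
        have hXs := X_succ (p := p) (x := p.K0) (by omega)
        refine gd_h (8 * p.u) (by omega) ?_ ?_ ?_
        · rcases (hN.k0h y).1 h0 with h | ⟨i, hi, h⟩
          · rw [py_lat0 (by omega), py_hm0 (by omega)]
          · rw [py_lat1 (by omega), py_hm1 (by omega)]
        · rw [px_lat0 (by omega), px_hm0 _ (by omega), hXs]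
          omega
        · rw [rad_hm]
          have := rad_lat_ge (p := p) (p.K0 + 1) y
          push_cast
          linarith
      · by_cases hxK1 : x + 1 = p.K0
        · have hxe : x = p.K0 - 1 := by omega
          have h0' := h0
          rw [hxe] at h0'
          have hXs := X_succ (p := p) (x := x) (by omega)
          have plain : (y = 3 ∨ ∃ i < p.rows, y = 5 + 6 * i) → Gd p (hm x y) (lat (x + 1) y) := by
            intro hy
            refine gd_h (8 * p.u) (by omega) ?_ ?_ ?_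
            · rw [py_lat0 (by omega), py_hm0 (by omega)]
            · rw [px_lat0 (by
                rcases hy with hy | ⟨i, hi, hy⟩ <;> omega), px_hm0 _ (by omega), hXs]
              omega
            · rw [rad_hm]
              have := rad_lat_ge (p := p) (x + 1) y
              push_cast
              linarith
          rcases (hN.k0l y).1 h0' with h | ⟨i, hi, h | h | h⟩
          · exact plain (Or.inl h)
          · exact plain (Or.inr ⟨i, hi, h⟩)
          · exact absurd ((hN.hubI _ y).2 ⟨hxK1, i, hi, h⟩) hh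
          · obtain ⟨b1, b2, b3, b4⟩ := ok_bounds hok hi
            have hid : (y - 4) / 6 = i := by omega
            have h6 : (y - 4) % 6 = 5 := by omega
            have hy4 : 4 ≤ y := by omega
            refine gd_h (8 * p.u + p.A i) (by omega) ?_ ?_ ?_
            · rw [py_lat0 (by omega), py_hm0 (by omega)]
            · rw [px_lat1 ⟨hxK1, hy4, by omega⟩, px_hm0 _ (by omega), hid, hXs]
              omega
            · rw [rad_hm, rad_lat, if_neg, if_pos ⟨hxK1, hy4, h6⟩]
              · have h8 : 8 * (p.A i : ℝ) ≤ p.u := by exact_mod_cast b1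
                have h9 : (0 : ℝ) ≤ p.A i := by positivity
                push_cast
                linarith
              · intro h1
                have := hN.one _ _ h1
                omega
        · refine gd_h (if x = 3 then 7 * p.u else 8 * p.u) (by split_ifs <;> omega) ?_ ?_ ?_
          · rw [py_lat0 (by omega), py_hm0 (by omega)]
          · rw [px_lat0 (fun h => hxK1 h.1)]
            by_cases h3 : x = 3
            · subst h3
              rw [px_hm, if_pos rfl, X_four]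
              omega
            · rw [px_hm0 _ h3, if_neg h3, X_succ h3]
              omega
          · rw [rad_hm]
            have := rad_lat_ge (p := p) (x + 1) y
            split_ifs <;> push_cast <;> linarith

theorem gd_ver {W : ℕ} (hok : p.Ok W) (hN : p.NF) {x y : ℕ} (h0 : p.v x y = 0) :
    Gd p (p.st x y 2) (vm x y) ∧ Gd p (vm x y) (p.st x (y + 1) 0) := by
  obtain ⟨bx1, bx2, by1, by2⟩ := hN.boxv x y h0
  have hK := K0_ge (p := p)
  have hu := u_pos (p := p)
  have hu' : (0 : ℝ) < p.u := by exact_mod_cast hu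
  have hy2 : y ≠ 2 := by
    rintro rfl
    exact v_two x h0
  have hYs := Y_succ (p := p) by1 hy2
  constructor
  · unfold Par.st
    by_cases hh : p.hub x y = true
    · rw [if_pos hh]
      obtain ⟨hx, i, hi, hy⟩ := (hN.hubI x y).1 hh
      subst hx
      obtain ⟨b1, b2, b3, b4⟩ := ok_bounds hok hi
      have hid : (y - 4) / 6 = i := by omega
      rw [hid]
      refine gd_v (3 * p.u - p.C i) (by omega) ?_ ?_ ?_
      · rw [px_coin2, px_vm1 (by omega), hid]
      · rw [py_coin2, py_vm, two_pow_e2, hy]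
        omega
      · rw [rad_vm]
        have := rad_last (p := p) i 2
        have h9 : ((3 * p.u - p.C i : ℕ) : ℝ) ≤ 3 * p.u := by
          have : (3 * p.u - p.C i : ℕ) ≤ 3 * p.u := Nat.sub_le _ _
          exact_mod_cast this
        linarith
    · rw [if_neg hh]
      have hpx : p.px (lat x y) = p.px (vm x y) := by
        by_cases hxK : x = p.K0
        · subst hxK
          obtain ⟨i, hi, hy⟩ := (hN.k0v y).1 h0
          have hne : y ≠ 7 + 6 * i := fun h => hh ((hN.hubI _ y).2 ⟨rfl, i, hi, h⟩)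
          rcases hy with h | h | h | h
          · rw [px_lat0 (by omega), px_vm0 (by omega)]
          · rw [px_lat0 (by omega), px_vm0 (by omega)]
          · exact absurd h hne
          · rw [px_lat1 (by omega), px_vm1 (by omega)]
        · rw [px_lat0 (fun h => hxK h.1), px_vm0 (fun h => hxK h.1)]
      by_cases hc : x = p.K0 + 1 ∧ 4 ≤ y ∧ (y - 4) % 6 = 3
      · have hc' := hc
        obtain ⟨hx, hy4, hy6⟩ := hc'
        have hi : (y - 4) / 6 < p.rows := by omega
        obtain ⟨b1, b2, b3, b4⟩ := ok_bounds hok hi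
        have hYb : 42 * p.u ≤ p.Y y := Y_big (by omega)
        refine gd_v (7 * p.u + p.H ((y - 4) / 6)) (by omega) hpx ?_ ?_
        · rw [py_lat1 hc, py_vm]
          omega
        · rw [rad_vm]
          have := rad_lat_ge (p := p) x y
          have h8 : 8 * (p.A ((y - 4) / 6) : ℝ) ≤ p.u := by exact_mod_cast b1
          have h9 : (p.H ((y - 4) / 6) : ℝ) ≤ p.A ((y - 4) / 6) := by exact_mod_cast b4
          push_cast
          linarith
      · refine gd_v (7 * p.u) (by omega) hpx ?_ ?_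
        · rw [py_lat0 hc, py_vm]
        · rw [rad_vm]
          have := rad_lat_ge (p := p) x y
          push_cast
          linarith
  · unfold Par.st
    by_cases hh : p.hub x (y + 1) = true
    · rw [if_pos hh]
      obtain ⟨hx, i, hi, hy⟩ := (hN.hubI x (y + 1)).1 hh
      subst hx
      obtain ⟨b1, b2, b3, b4⟩ := ok_bounds hok hi
      have hid : (y + 1 - 4) / 6 = i := by omega
      have hYb : 42 * p.u ≤ p.Y y := Y_big (by omega)
      rw [hid]
      refine gd_v (3 * p.u - p.H i) (by omega) ?_ ?_ ?_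
      · rw [px_coin0, px_vm0 (by omega)]
      · rw [py_coin0, py_vm, two_pow_e2, ← hy, hYs]
        omega
      · rw [rad_vm]
        have := rad_last (p := p) i 0
        have h9 : ((3 * p.u - p.H i : ℕ) : ℝ) ≤ 3 * p.u := by
          have : (3 * p.u - p.H i : ℕ) ≤ 3 * p.u := Nat.sub_le _ _
          exact_mod_cast this
        linarith
    · rw [if_neg hh]
      have hpx : p.px (vm x y) = p.px (lat x (y + 1)) := by
        by_cases hxK : x = p.K0
        · subst hxK
          obtain ⟨i, hi, hy⟩ := (hN.k0v y).1 h0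
          have hne : y + 1 ≠ 7 + 6 * i := fun h => hh ((hN.hubI _ (y + 1)).2 ⟨rfl, i, hi, h⟩)
          rcases hy with h | h | h | h
          · rw [px_lat0 (by omega), px_vm0 (by omega)]
          · omega
          · have e1 : (y - 4) / 6 = i := by omega
            have e2 : (y + 1 - 4) / 6 = i := by omega
            rw [px_lat1 (by omega), px_vm1 (by omega), e1, e2]
          · have e1 : (y - 4) / 6 = i := by omega
            have e2 : (y + 1 - 4) / 6 = i := by omega
            rw [px_lat1 (by omega), px_vm1 (by omega), e1, e2]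
        · rw [px_lat0 (fun h => hxK h.1), px_vm0 (fun h => hxK h.1)]
      by_cases hc : x = p.K0 + 1 ∧ 4 ≤ y + 1 ∧ (y + 1 - 4) % 6 = 3
      · have hc' := hc
        obtain ⟨hx, hy4, hy6⟩ := hc'
        have hi : (y + 1 - 4) / 6 < p.rows := by omega
        obtain ⟨b1, b2, b3, b4⟩ := ok_bounds hok hi
        refine gd_v (7 * p.u - p.H ((y + 1 - 4) / 6)) (by omega) hpx ?_ ?_
        · rw [py_lat1 hc, py_vm, hYs]
          omega
        · rw [rad_vm]
          have := rad_lat_ge (p := p) x (y + 1)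
          have h9 : ((7 * p.u - p.H ((y + 1 - 4) / 6) : ℕ) : ℝ) ≤ 7 * p.u := by
            have : (7 * p.u - p.H ((y + 1 - 4) / 6) : ℕ) ≤ 7 * p.u := Nat.sub_le _ _
            exact_mod_cast this
          linarith
      · refine gd_v (7 * p.u) (by omega) hpx ?_ ?_
        · rw [py_lat0 hc, py_vm, hYs]
          omega
        · rw [rad_vm]
          have := rad_lat_ge (p := p) x (y + 1)
          push_cast
          linarith

theorem gd_arm {W : ℕ} (hok : p.Ok W) (hF : p.FK) {i c k : ℕ} (hi : i < p.rows) (hc : c < 4)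
    (hk : k < p.e + 3) (hcn : p.cn i c k = true) :
    Gd p (if p.fst' i c k then ring i c else coin i c (k - 1)) (coin i c k) := by
  obtain ⟨b1, b2, b3, b4⟩ := ok_bounds hok hi
  have hlt := hF.lt i hi c hc
  have hYb : 42 * p.u ≤ p.Y (7 + 6 * i) := Y_big (by omega)
  have hXb := X_K0_big (p := p)
  have hle : 2 ^ k ≤ 4 * p.u := by
    rw [← two_pow_e2]
    exact Nat.pow_le_pow_right (by norm_num) (by omega)
  have hpk : 0 < 2 ^ k := by positivity
  by_cases hf : p.fst' i c k = true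
  · rw [if_pos hf]
    have hr : ((2 ^ k : ℕ) : ℝ) ≤ p.rad (ring i c) + p.rad (coin i c k) := by
      rw [rad_ring, rad_coin, if_pos hf]
      unfold Par.fst' at hf
      have h6 : 6 * 2 ^ k ≤ 5 * p.r2 i c := of_decide_eq_true hf
      have h6' : 6 * (2 : ℝ) ^ k ≤ 5 * p.r2 i c := by exact_mod_cast h6
      push_cast
      linarith
    have hc4 : c = 0 ∨ c = 1 ∨ c = 2 ∨ c = 3 := by omega
    rcases hc4 with rfl | rfl | rfl | rfl
    · refine (gd_v (2 ^ k) hpk ?_ ?_ (by linarith)).symm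
      · rw [px_coin0, px_ring0]
      · rw [py_coin0, py_ring0]; omega
    · refine (gd_h (2 ^ k) hpk ?_ ?_ (by linarith)).symm
      · rw [py_coin1, py_ring1]
      · rw [px_coin1, px_ring1]; omega
    · refine gd_v (2 ^ k) hpk ?_ ?_ hr
      · rw [px_coin2, px_ring2]
      · rw [py_coin2, py_ring2]
    · refine gd_h (2 ^ k) hpk ?_ ?_ hr
      · rw [py_coin3, py_ring3]
      · rw [px_coin3, px_ring3]
  · rw [if_neg hf]
    have hkk : ¬ k ≤ p.fk i c := fun h => hf ((hF.fst i hi c hc k).2 h)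
    obtain ⟨m, rfl⟩ : ∃ m, k = m + 1 := ⟨k - 1, by omega⟩
    rw [Nat.add_sub_cancel]
    have hpm : 0 < 2 ^ m := by positivity
    have hpw : 2 ^ (m + 1) = 2 ^ m + 2 ^ m := by rw [pow_succ]; ring
    have hr : ((2 ^ m : ℕ) : ℝ) ≤ p.rad (coin i c m) + p.rad (coin i c (m + 1)) := by
      have h1 := rad_coin_ge (p := p) i c m
      have h2 := rad_coin_ge (p := p) i c (m + 1)
      rw [pow_succ] at h2
      have h3 : (0 : ℝ) < 2 ^ m := by positivity
      push_cast
      linarith
    have hc4 : c = 0 ∨ c = 1 ∨ c = 2 ∨ c = 3 := by omega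
    rcases hc4 with rfl | rfl | rfl | rfl
    · refine (gd_v (2 ^ m) hpm ?_ ?_ (by linarith)).symm
      · rw [px_coin0, px_coin0]
      · rw [py_coin0, py_coin0]; omega
    · refine (gd_h (2 ^ m) hpm ?_ ?_ (by linarith)).symm
      · rw [py_coin1, py_coin1]
      · rw [px_coin1, px_coin1]; omega
    · refine gd_v (2 ^ m) hpm ?_ ?_ hr
      · rw [px_coin2, px_coin2]
      · rw [py_coin2, py_coin2]; omega
    · refine gd_h (2 ^ m) hpm ?_ ?_ hr
      · rw [py_coin3, py_coin3]
      · rw [px_coin3, px_coin3]; omega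

theorem gd_FL {W : ℕ} (hok : p.Ok W) (hN : p.NF) (hF : p.FK) {q : Vx × Vx} (hq : q ∈ p.FL) :
    Gd p q.1 q.2 := by
  unfold Par.FL at hq
  rw [List.mem_append] at hq
  rcases hq with hq | hq
  · simp only [List.mem_flatMap, List.mem_range] at hq
    obtain ⟨x, -, y, -, hq⟩ := hq
    unfold Par.fcell at hq
    rw [List.mem_append] at hq
    rcases hq with hq | hq
    · by_cases h0 : p.h x y = 0
      · rw [if_pos h0] at hq
        simp only [List.mem_cons, List.not_mem_nil, or_false] at hq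
        rcases hq with rfl | rfl
        · exact (gd_hor hok hN h0).1
        · exact (gd_hor hok hN h0).2
      · rw [if_neg h0] at hq
        simp at hq
    · by_cases h0 : p.v x y = 0
      · rw [if_pos h0] at hq
        simp only [List.mem_cons, List.not_mem_nil, or_false] at hq
        rcases hq with rfl | rfl
        · exact (gd_ver hok hN h0).1
        · exact (gd_ver hok hN h0).2
      · rw [if_neg h0] at hq
        simp at hq
  · simp only [List.mem_flatMap, List.mem_range] at hq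
    obtain ⟨i, hi, c, hc, hq⟩ := hq
    unfold Par.farm at hq
    simp only [List.mem_map, List.mem_filter, List.mem_range] at hq
    obtain ⟨k, ⟨hk, hcn⟩, rfl⟩ := hq
    exact gd_arm hok hF hi hc hk hcn

/-- module LF -/
theorem lf : specLF := by
  intro p W hok hN _ hF _ a b hab
  have h : Gd p a b := by
    rcases hab with h | h
    · have h2 := gd_FL hok hN hF (q := (a, b)) h
      exact h2
    · have h2 := gd_FL hok hN hF (q := (b, a)) h
      exact Gd.symm h2
  obtain ⟨L, h1, h2, h3, h4⟩ := h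
  exact ⟨by rw [h2, h3], by rw [h3]; exact h1, by rw [h2]; exact h4⟩

end Pool.Agent.Helper34.ES
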